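import Pool.Agent.H46.FRU.GH2

/-!
Module CP2 of project FRU: the generic ladder captures the reals.
-/

set_option linter.unusedVariables false
set_option linter.unusedSectionVars false
set_option synthInstance.maxSize 100000

namespace SW.FU

theorem fru_cp2 (hE : EX2Stmt) : CP2Stmt := by
  intro M _ _ _ w L U A R G hK hG _ S d hS hd
  have hem := embF hG
  have htf := traF hG
  obtain ⟨S0, hS0, rfl⟩ := hem.trans _ _ hS
  obtain ⟨d0, hd0, rfl⟩ := hem.trans _ _ hd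
  obtain ⟨p, hp, h1, h2, _⟩ := gh2_den hE hK hG hS0 hd0 emp_mem_om
  refine finF.sub (htf.fnt _ (gh2_cn hG hp).2.2.1.1) fun a ha => ?_
  rw [mem_sep' inferInstance] at ha
  obtain ⟨ha, hcon⟩ := ha
  obtain ⟨a0, ha0, rfl⟩ := hem.trans _ _ ha
  rw [hem.mem]
  by_contra hap
  apply hcon
  intro n m k F hA hJ hT
  obtain ⟨q1, S1, a1, m0, hq1, hj, e1, e2, rfl⟩ := (gh2_jv hG).1 hJ
  rw [hem.inj] at e1 e2
  subst e1 e2
  obtain ⟨q2, d1, a1, n0, k0, F0, hq2, ht, e1, e2, rfl, rfl, rfl⟩ := (gh2_tv hG).1 hT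
  rw [hem.inj] at e1 e2
  subst e1 e2
  obtain ⟨r1, hr1, l1, l2⟩ := hG.dir q1 q2 hq1 hq2
  obtain ⟨q, hq, l3, l4⟩ := hG.dir r1 p hr1 hp
  have hA0 : Et A S0 a0 n0 := by
    unfold Et at hA ⊢
    rw [← htf.opair, ← htf.opair, hem.mem] at hA
    exact hA
  have hj' : Jv (cj q) S0 a0 m0 := l3.2.2.2.1 _ (l1.2.2.2.1 _ hj)
  have ht' : Tv (ct q) d0 a0 n0 k0 F0 := l3.2.2.2.2.1 _ (l2.2.2.2.2.1 _ ht)
  have hcq := gh2_cn hG hq
  have haq : E a0 (cd q) := by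
    obtain ⟨δ, α, b, k', F', _, h12, _, _, _, _, he⟩ := gh2_t hcq ht'
    rw [opair_inj, opair_inj, opair_inj] at he
    obtain ⟨⟨_, rfl, _⟩, _⟩ := he
    exact h12
  have hkq : E k0 (suc (cn q)) := by
    obtain ⟨δ, α, b, k', F', _, _, _, _, h12, _, he⟩ := gh2_t hcq ht'
    rw [opair_inj, opair_inj, opair_inj, opair_inj] at he
    obtain ⟨_, rfl, _⟩ := he
    exact h12
  rcases l4.2.2.2.2.2.2.2 d0 a0 S0 n0 k0 F0 m0 h2 haq hap h1 hA0 ht' hj' with h3 | h3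
  · left
    rwa [htf.sub]
  · right
    intro i hi
    obtain ⟨i0, hi0, rfl⟩ := hem.trans _ _ hi
    rw [hem.mem, h3 i0 hi0]
    have hiq : E i0 (cn q) := by
      rw [mem_suc] at hkq
      rcases hkq with hkq | rfl
      · exact om_trans_elt hcq.2.2.2.1 _ hkq _ hi0
      · exact hi0
    have hSq : E S0 (cg q) := l4.1 _ h1
    constructor
    · intro h4
      exact (gh2_rv hG).2 ⟨q, S0, i0, hq, h4, rfl, rfl⟩
    · intro h4
      obtain ⟨q', S1, i1, hq', h5, e1, e2⟩ := (gh2_rv hG).1 h4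
      rw [hem.inj] at e1 e2
      subst e1 e2
      obtain ⟨r, hr, l5, l6⟩ := hG.dir q q' hq hq'
      obtain ⟨S2, i2, h6, h7, he⟩ := (gh2_cn hG hq').2.2.2.2.1.2 _ h5
      rw [opair_inj] at he
      obtain ⟨rfl, rfl⟩ := he
      have h8 := (l6.2.2.2.2.2.1 S0 i0 h6 h7).2 h5
      exact (l5.2.2.2.2.2.1 S0 i0 hSq hiq).1 h8

end SW.FU
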