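import Pool.Agent.H14.FRU.Stmts

/-!
Module EX2 of project FRU: extensions of conditions.
-/

set_option linter.unusedVariables false
set_option linter.unusedSectionVars false
set_option synthInstance.maxSize 100000

namespace SW.FU

section
variable {M : Type} [SetStr M] [ZF M]

/-- a finite set of natural numbers is bounded -/
theorem ex2_bdd {x : M} (hx : Fnt x) (h : Sub x om) : ∃ n, E n om ∧ ∀ a, E a x → E a n := by
  refine finF.ind (fun x : M => Sub x om → ∃ n : M, E n om ∧ ∀ a : M, E a x → E a n)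
    inferInstance ?_ ?_ x hx h
  · intro _
    exact ⟨emp, emp_mem_om, fun a ha => absurd ha (not_mem_emp a)⟩
  · intro x a _ _ ih hs
    obtain ⟨n, hn, h1⟩ := ih fun z hz => hs z (by rw [mem_ins]; exact Or.inl hz)
    have ha : E a om := hs a (by simp)
    have o1 := Ord_nat hn
    have o2 := Ord_suc (Ord_nat ha)
    have h3 : E a (suc a) := by simp
    rcases o1.tri o2 with h2 | h2 | h2
    · refine ⟨suc a, suc_mem_om ha, fun z hz => ?_⟩
      rw [mem_ins] at hz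
      rcases hz with hz | rfl
      · exact o2.trans h2 (h1 z hz)
      · exact h3
    · refine ⟨suc a, suc_mem_om ha, fun z hz => ?_⟩
      rw [mem_ins] at hz
      rcases hz with hz | rfl
      · rw [← h2]; exact h1 z hz
      · exact h3
    · refine ⟨n, hn, fun z hz => ?_⟩
      rw [mem_ins] at hz
      rcases hz with hz | rfl
      · exact h1 z hz
      · exact o1.trans h2 h3

/-- the extended function `j` -/
noncomputable def ex2j (g d n j : M) : M :=
  bun j (img (sep (prod g d) (fun z => ¬ ∃ m : M, E (opair z m) j)) (fun z => opair z n))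

/-- the extended function `t` -/
noncomputable def ex2t (d n t : M) : M :=
  bun t (img (sep (prod d (prod d n)) (fun z => (∃ δ α a : M, z = opair δ (opair α a) ∧ E α δ) ∧
    ¬ ∃ k F : M, E (opair z (opair k F)) t)) (fun z => opair z (opair n emp)))

theorem mem_ex2j {g d n j y : M} : E y (ex2j g d n j) ↔ E y j ∨ ∃ S α, E S g ∧ E α d ∧
    (¬ ∃ m, Jv j S α m) ∧ y = opair (opair S α) n := by
  unfold ex2j
  rw [mem_bun, mem_img' inferInstance]
  refine or_congr Iff.rfl ⟨?_, ?_⟩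
  · rintro ⟨z, hz, rfl⟩
    rw [mem_sep' inferInstance] at hz
    obtain ⟨S, α, hS, hα, rfl⟩ := mem_prod'.1 hz.1
    exact ⟨S, α, hS, hα, hz.2, rfl⟩
  · rintro ⟨S, α, hS, hα, h, rfl⟩
    exact ⟨opair S α, (mem_sep' inferInstance).2 ⟨mem_prod.2 ⟨hS, hα⟩, h⟩, rfl⟩

theorem jv_ex2j {g d n j S α m : M} : Jv (ex2j g d n j) S α m ↔ Jv j S α m ∨
    (E S g ∧ E α d ∧ (¬ ∃ m, Jv j S α m) ∧ m = n) := by
  unfold Jv
  rw [mem_ex2j]
  refine or_congr Iff.rfl ⟨?_, ?_⟩
  · rintro ⟨S', α', hS, hα, h, he⟩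
    rw [opair_inj, opair_inj] at he
    obtain ⟨⟨rfl, rfl⟩, rfl⟩ := he
    exact ⟨hS, hα, h, rfl⟩
  · rintro ⟨hS, hα, h, rfl⟩
    exact ⟨S, α, hS, hα, h, rfl⟩

theorem mem_ex2t {d n t y : M} : E y (ex2t d n t) ↔ E y t ∨ ∃ δ α a, E δ d ∧ E α d ∧ E a n ∧
    E α δ ∧ (¬ ∃ k F, Tv t δ α a k F) ∧ y = opair (opair δ (opair α a)) (opair n emp) := by
  unfold ex2t
  rw [mem_bun, mem_img' inferInstance]
  refine or_congr Iff.rfl ⟨?_, ?_⟩
  · rintro ⟨z, hz, rfl⟩
    rw [mem_sep' inferInstance] at hz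
    obtain ⟨h1, ⟨δ, α, a, rfl, h2⟩, h3⟩ := hz
    rw [mem_prod, mem_prod] at h1
    exact ⟨δ, α, a, h1.1, h1.2.1, h1.2.2, h2, h3, rfl⟩
  · rintro ⟨δ, α, a, h1, h2, h3, h4, h5, rfl⟩
    exact ⟨opair δ (opair α a), (mem_sep' inferInstance).2
      ⟨mem_prod.2 ⟨h1, mem_prod.2 ⟨h2, h3⟩⟩, ⟨δ, α, a, rfl, h4⟩, h5⟩, rfl⟩

theorem tv_ex2t {d n t δ α a k F : M} : Tv (ex2t d n t) δ α a k F ↔ Tv t δ α a k F ∨
    (E δ d ∧ E α d ∧ E a n ∧ E α δ ∧ (¬ ∃ k F, Tv t δ α a k F) ∧ k = n ∧ F = emp) := by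
  unfold Tv
  rw [mem_ex2t]
  refine or_congr Iff.rfl ⟨?_, ?_⟩
  · rintro ⟨δ', α', a', h1, h2, h3, h4, h5, he⟩
    rw [opair_inj, opair_inj, opair_inj, opair_inj] at he
    obtain ⟨⟨rfl, rfl, rfl⟩, rfl, rfl⟩ := he
    exact ⟨h1, h2, h3, h4, h5, rfl, rfl⟩
  · rintro ⟨h1, h2, h3, h4, h5, rfl, rfl⟩
    exact ⟨δ, α, a, h1, h2, h3, h4, h5, rfl⟩

/-- the extended condition -/
theorem ex2_ext {w L A p g d n : M} (hp : Cn2 w L A p) (hg : Fnt g) (hgL : Sub g L)
    (hg' : Sub (cg p) g) (hd : Fnt d) (hdw : Sub d w) (hd' : Sub (cd p) d) (hn : E n om)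
    (hn' : Sub (cn p) n) (hA : ∀ S α a, E S g → E α d → Et A S α a → E a n) :
    Cn2 w L A (pk g d n (cr p) (ex2j g d n (cj p)) (ex2t d n (ct p))) ∧
    Le2 A (pk g d n (cr p) (ex2j g d n (cj p)) (ex2t d n (ct p))) p := by
  obtain ⟨p0, ⟨pg, pgL⟩, ⟨pd, pdw⟩, pn, ⟨pr, pr1⟩, ⟨pj, pj1, pj2, pj3⟩, ⟨pt, pt1, pt2, pt3⟩, pA⟩ := hp
  constructor
  · refine ⟨by simp, ?_, ?_, ?_, ?_, ?_, ?_, ?_⟩
    · rw [cg_pk]; exact ⟨hg, hgL⟩
    · rw [cd_pk]; exact ⟨hd, hdw⟩
    · rw [cn_pk]; exact hn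
    · rw [cr_pk, cg_pk, cn_pk]
      refine ⟨pr, fun z hz => ?_⟩
      obtain ⟨S, i, hS, hi, rfl⟩ := pr1 z hz
      exact ⟨S, i, hg' S hS, hn' i hi, rfl⟩
    · rw [cj_pk, cg_pk, cd_pk]
      refine ⟨?_, fun z hz => ?_, fun S α hS hα => ?_, fun S α m m' h h' => ?_⟩
      · unfold ex2j
        refine finF.bun pj (finF.img _ inferInstance (finF.sub (finF.prod hg hd) fun z hz => ?_))
        exact ((mem_sep' inferInstance).1 hz).1
      · rw [mem_ex2j] at hz
        rcases hz with hz | ⟨S, α, hS, hα, _, rfl⟩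
        · obtain ⟨S, α, m, hS, hα, hm, rfl⟩ := pj1 z hz
          exact ⟨S, α, m, hg' S hS, hd' α hα, hm, rfl⟩
        · exact ⟨S, α, n, hS, hα, hn, rfl⟩
      · by_cases h : ∃ m, Jv (cj p) S α m
        · obtain ⟨m, hm⟩ := h
          exact ⟨m, jv_ex2j.2 (Or.inl hm)⟩
        · exact ⟨n, jv_ex2j.2 (Or.inr ⟨hS, hα, h, rfl⟩)⟩
      · rw [jv_ex2j] at h h'
        rcases h with h | ⟨_, _, h, rfl⟩
        · rcases h' with h' | ⟨_, _, h', rfl⟩
          · exact pj3 S α m m' h h'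
          · exact absurd ⟨m, h⟩ h'
        · rcases h' with h' | ⟨_, _, h', rfl⟩
          · exact absurd ⟨m', h'⟩ h
          · rfl
    · rw [ct_pk, cd_pk, cn_pk]
      refine ⟨?_, fun z hz => ?_, fun δ α a hδ hα hαδ ha => ?_, fun δ α a k F k' F' h h' => ?_⟩
      · unfold ex2t
        refine finF.bun pt (finF.img _ inferInstance
          (finF.sub (finF.prod hd (finF.prod hd (finF.nat hn))) fun z hz => ?_))
        exact ((mem_sep' inferInstance).1 hz).1
      · rw [mem_ex2t] at hz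
        rcases hz with hz | ⟨δ, α, a, h1, h2, h3, h4, _, rfl⟩
        · obtain ⟨δ, α, a, k, F, h1, h2, h3, h4, h5, h6, rfl⟩ := pt1 z hz
          refine ⟨δ, α, a, k, F, hd' δ h1, hd' α h2, h3, hn' a h4, ?_, h6, rfl⟩
          have hs := ((Ord_nat pn).sub_iff (Ord_nat hn)).1 hn'
          rw [mem_suc] at h5 ⊢
          rcases h5 with h5 | rfl
          · exact Or.inl (hn' k h5)
          · exact hs
        · exact ⟨δ, α, a, n, emp, h1, h2, h4, h3, by simp, fun z hz => absurd hz (not_mem_emp z),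
            rfl⟩
      · by_cases h : ∃ k F, Tv (ct p) δ α a k F
        · obtain ⟨k, F, h⟩ := h
          exact ⟨k, F, tv_ex2t.2 (Or.inl h)⟩
        · exact ⟨n, emp, tv_ex2t.2 (Or.inr ⟨hδ, hα, ha, hαδ, h, rfl, rfl⟩)⟩
      · rw [tv_ex2t] at h h'
        rcases h with h | ⟨_, _, _, _, h, rfl, rfl⟩
        · rcases h' with h' | ⟨_, _, _, _, h', rfl, rfl⟩
          · exact pt3 δ α a k F k' F' h h'
          · exact absurd ⟨k, F, h⟩ h'
        · rcases h' with h' | ⟨_, _, _, _, h', rfl, rfl⟩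
          · exact absurd ⟨k', F', h'⟩ h
          · exact ⟨rfl, rfl⟩
    · rw [cg_pk, cd_pk, cn_pk]
      exact hA
  · unfold Le2
    simp only [cg_pk, cd_pk, cn_pk, cr_pk, cj_pk, ct_pk]
    refine ⟨hg', hd', hn', fun z hz => mem_ex2j.2 (Or.inl hz), fun z hz => mem_ex2t.2 (Or.inl hz),
      fun S i _ _ => trivial, ?_, ?_⟩
    · intro δ α a k F hδ h h'
      rw [tv_ex2t] at h
      rcases h with h | ⟨_, _, _, _, h, rfl, rfl⟩
      · exact absurd h h'
      · exact hn'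
    · intro δ α S a k F m hδ hα hα' hS hAa ht hj
      left
      rw [tv_ex2t] at ht
      rw [jv_ex2j] at hj
      rcases ht with ht | ⟨_, _, _, _, _, rfl, rfl⟩
      · exfalso
        obtain ⟨δ', α', a', k', F', _, h2, _, _, _, _, he⟩ := pt1 _ ht
        rw [opair_inj, opair_inj, opair_inj] at he
        obtain ⟨⟨_, rfl, _⟩, _⟩ := he
        exact hα' h2
      · rcases hj with hj | ⟨_, _, _, rfl⟩
        · exfalso
          obtain ⟨S', α', m', _, h2, _, he⟩ := pj1 _ hj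
          rw [opair_inj, opair_inj] at he
          obtain ⟨⟨_, rfl⟩, _⟩ := he
          exact hα' h2
        · exact Sub.refl _

end

theorem fru_ex2 (h2 : UF2Stmt) : EX2Stmt := by
  intro M _ _ w L U A R p S α m hK hp hS hα hm
  obtain ⟨_, _, hU, _⟩ := h2 M w L U A R hK
  have hp1 := (mem_P2.1 hp).2
  have hp2 := hp1
  obtain ⟨p0, ⟨pg, pgL⟩, ⟨pd, pdw⟩, pn, _⟩ := hp2
  have g1 : Fnt (ins S (cg p)) := finF.ins pg
  have g2 : Sub (ins S (cg p)) L := fun z hz => by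
    rw [mem_ins] at hz
    rcases hz with hz | rfl
    · exact pgL z hz
    · exact hS
  have d1 : Fnt (ins α (cd p)) := finF.ins pd
  have d2 : Sub (ins α (cd p)) w := fun z hz => by
    rw [mem_ins] at hz
    rcases hz with hz | rfl
    · exact pdw z hz
    · exact hα
  have hsub : ∀ {x a : M}, Sub x (ins a x) := fun z hz => by rw [mem_ins]; exact Or.inl hz
  -- the set of values
  have hval : ∀ S' b, E S' L → E b w → the (fun a => Et A S' b a) = the (fun a => Et A S' b a) ∧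
      E (the (fun a => Et A S' b a)) om ∧ ∀ a, Et A S' b a → a = the (fun a => Et A S' b a) := by
    intro S' b hS' hb
    obtain ⟨n, hn, h⟩ := hK.tot S' b hS' hb
    have he : the (fun a => Et A S' b a) = n := the_eq h fun z hz => hK.uq S' b z n hz h
    rw [he]
    exact ⟨rfl, hn, fun a ha => hK.uq S' b a n ha h⟩
  obtain ⟨n, hn, hb⟩ := ex2_bdd (x := ins (cn p) (ins m (img (prod (ins S (cg p)) (ins α (cd p)))
    (fun z => the (fun a => Et A (fs z) (sn z) a)))))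
    (finF.ins (finF.ins (finF.img _ inferInstance (finF.prod g1 d1)))) (by
      intro z hz
      rw [mem_ins, mem_ins, mem_img' inferInstance] at hz
      rcases hz with (⟨y, hy, rfl⟩ | rfl) | rfl
      · obtain ⟨S', b, hS', hb, rfl⟩ := mem_prod'.1 hy
        rw [fs_op, sn_op]
        exact (hval S' b (g2 _ hS') (d2 _ hb)).2.1
      · exact hm
      · exact pn)
  have hn' : Sub (cn p) n := om_trans_elt hn _ (hb _ (by simp))
  have hA : ∀ S' b a, E S' (ins S (cg p)) → E b (ins α (cd p)) → Et A S' b a → E a n := by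
    intro S' b a hS' hb' ha
    apply hb
    rw [mem_ins, mem_ins, mem_img' inferInstance]
    refine Or.inl (Or.inl ⟨opair S' b, mem_prod.2 ⟨hS', hb'⟩, ?_⟩)
    rw [fs_op, sn_op]
    exact (hval S' b (g2 _ hS') (d2 _ hb')).2.2 a ha
  obtain ⟨hc, hle⟩ := ex2_ext hp1 g1 g2 hsub d1 d2 hsub hn hn' hA
  refine ⟨_, mem_P2.2 ⟨Or.inl (hU _ hc), hc⟩, hle, ?_, ?_, ?_⟩
  · rw [cg_pk]; simp
  · rw [cd_pk]; simp
  · rw [cn_pk]
    exact hb _ (by simp)

end SW.FU
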