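import Pool.Agent.H14.FRU.Stmts

/-!
Module GH2 of project FRU: the generic ladder.
-/

set_option linter.unusedVariables false
set_option linter.unusedSectionVars false
set_option synthInstance.maxSize 100000

namespace SW.FU

section
variable {M : Type} [SetStr M] [ZF M] {w L U A : M} {G : M → Prop}

theorem gh2_cn (hG : Gen (PG2 w L U A) G) {p : M} (hp : G p) : Cn2 w L A p :=
  (mem_P2.1 (hG.sub p hp)).2

theorem gh2_t {p z : M} (hp : Cn2 w L A p) (hz : E z (ct p)) : ∃ δ α a k F, E δ (cd p) ∧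
    E α (cd p) ∧ E α δ ∧ E a (cn p) ∧ E k (suc (cn p)) ∧ Sub F k ∧
    z = opair (opair δ (opair α a)) (opair k F) := hp.2.2.2.2.2.2.1.2.1 z hz

/-- the generic ladder -/
theorem gh2_tv (hG : Gen (PG2 w L U A) G) [ZF (Ext (PG2 w L U A) G)]
    {d a n k F : Ext (PG2 w L U A) G} :
    Tv (mk (PG2 w L U A) G (HH w L U A)) d a n k F ↔ ∃ p d0 a0 n0 k0 F0, G p ∧
      Tv (ct p) d0 a0 n0 k0 F0 ∧ d = emb _ G d0 ∧ a = emb _ G a0 ∧ n = emb _ G n0 ∧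
      k = emb _ G k0 ∧ F = emb _ G F0 := by
  have htf := traF hG
  unfold Tv HH
  rw [mem_mk_Nmx hG inferInstance]
  constructor
  · rintro ⟨p, x, hp, _, hx, he⟩
    obtain ⟨δ, α, b, k', F', _, _, _, _, _, _, rfl⟩ := gh2_t (gh2_cn hG hp) hx
    rw [htf.opair, htf.opair, htf.opair, htf.opair, opair_inj, opair_inj, opair_inj,
      opair_inj] at he
    obtain ⟨⟨e1, e2, e3⟩, e4, e5⟩ := he
    exact ⟨p, δ, α, b, k', F', hp, hx, e1, e2, e3, e4, e5⟩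
  · rintro ⟨p, d0, a0, n0, k0, F0, hp, hx, rfl, rfl, rfl, rfl, rfl⟩
    refine ⟨p, opair (opair d0 (opair a0 n0)) (opair k0 F0), hp, ?_, hx, ?_⟩
    · have hc := gh2_cn hG hp
      obtain ⟨δ, α, b, k', F', h1, h2, _, h4, h5, h6, he⟩ := gh2_t hc hx
      obtain ⟨_, _, ⟨_, h7⟩, h8, _⟩ := hc
      rw [opair_inj, opair_inj, opair_inj, opair_inj] at he
      obtain ⟨⟨rfl, rfl, rfl⟩, rfl, rfl⟩ := he
      have hk : E k0 om := Trans_om _ (suc_mem_om h8) _ h5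
      rw [mem_prod, mem_prod, mem_prod, mem_prod, mem_pow]
      exact ⟨⟨h7 _ h1, h7 _ h2, Trans_om _ h8 _ h4⟩, hk, h6.trans (Trans_om _ hk)⟩
    · rw [htf.opair, htf.opair, htf.opair, htf.opair]

/-- the functions `j` -/
theorem gh2_jv (hG : Gen (PG2 w L U A) G) [ZF (Ext (PG2 w L U A) G)]
    {S b m : Ext (PG2 w L U A) G} :
    Jv (mk (PG2 w L U A) G (JN w L U A)) S b m ↔ ∃ p S0 b0 m0, G p ∧ Jv (cj p) S0 b0 m0 ∧
      S = emb _ G S0 ∧ b = emb _ G b0 ∧ m = emb _ G m0 := by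
  have htf := traF hG
  unfold Jv JN
  rw [mem_mk_Nmx hG inferInstance]
  constructor
  · rintro ⟨p, x, hp, _, hx, he⟩
    obtain ⟨S0, b0, m0, _, _, _, rfl⟩ := (gh2_cn hG hp).2.2.2.2.2.1.2.1 x hx
    rw [htf.opair, htf.opair, opair_inj, opair_inj] at he
    obtain ⟨⟨e1, e2⟩, e3⟩ := he
    exact ⟨p, S0, b0, m0, hp, hx, e1, e2, e3⟩
  · rintro ⟨p, S0, b0, m0, hp, hx, rfl, rfl, rfl⟩
    refine ⟨p, opair (opair S0 b0) m0, hp, ?_, hx, ?_⟩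
    · have hc := gh2_cn hG hp
      obtain ⟨S1, b1, m1, h1, h2, h3, he⟩ := hc.2.2.2.2.2.1.2.1 _ hx
      obtain ⟨_, ⟨_, h6⟩, ⟨_, h7⟩, _⟩ := hc
      rw [opair_inj, opair_inj] at he
      obtain ⟨⟨rfl, rfl⟩, rfl⟩ := he
      rw [mem_prod, mem_prod]
      exact ⟨⟨h6 _ h1, h7 _ h2⟩, h3⟩
    · rw [htf.opair, htf.opair]

/-- the reals -/
theorem gh2_rv (hG : Gen (PG2 w L U A) G) [ZF (Ext (PG2 w L U A) G)]
    {S i : Ext (PG2 w L U A) G} :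
    Rv (mk (PG2 w L U A) G (RN w L U A)) S i ↔ ∃ p S0 i0, G p ∧ Rv (cr p) S0 i0 ∧
      S = emb _ G S0 ∧ i = emb _ G i0 := by
  have htf := traF hG
  unfold Rv RN
  rw [mem_mk_Nmx hG inferInstance]
  constructor
  · rintro ⟨p, x, hp, _, hx, he⟩
    obtain ⟨S0, i0, _, _, rfl⟩ := (gh2_cn hG hp).2.2.2.2.1.2 x hx
    rw [htf.opair, opair_inj] at he
    obtain ⟨e1, e2⟩ := he
    exact ⟨p, S0, i0, hp, hx, e1, e2⟩
  · rintro ⟨p, S0, i0, hp, hx, rfl, rfl⟩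
    refine ⟨p, opair S0 i0, hp, ?_, hx, ?_⟩
    · have hc := gh2_cn hG hp
      obtain ⟨S1, i1, h1, h2, he⟩ := hc.2.2.2.2.1.2 _ hx
      obtain ⟨_, ⟨_, h6⟩, _, h8, _⟩ := hc
      rw [opair_inj] at he
      obtain ⟨rfl, rfl⟩ := he
      rw [mem_prod]
      exact ⟨h6 _ h1, Trans_om _ h8 _ h2⟩
    · rw [htf.opair]

end

section
variable {M : Type} [SetStr M] [ZFC M] {w L U A R : M} {G : M → Prop}

/-- `L` is not empty -/
theorem gh2_L (hK : K3 w L U A R) : ∃ S, E S L := by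
  have h1 : Sub (sing (emp : M)) U := fun z hz => by
    rw [mem_sing] at hz
    subst hz
    exact hK.fnt _ finF.emp fun z hz => absurd hz (not_mem_emp z)
  have h2 : Img (prod w om) (sing (emp : M)) := by
    have hw : E emp w := by
      refine emp_mem_ord hK.w1.1 ?_
      rintro rfl
      exact hK.w1.2.1 ⟨emp, fun y hy => absurd hy (not_mem_emp y),
        fun y _ _ hy => absurd hy (not_mem_emp y)⟩
    refine ⟨sing (opair (opair emp emp) emp), fun y hy => ⟨opair emp emp,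
      mem_prod.2 ⟨hw, emp_mem_om⟩, ?_⟩⟩
    rw [mem_sing] at hy
    subst hy
    symm
    refine the_eq (by simp) fun z hz => ?_
    rw [mem_sing, opair_inj] at hz
    exact hz.2
  obtain ⟨S, hS, _⟩ := hK.nm _ h1 h2 ⟨emp, by simp⟩
  exact ⟨S, hS⟩

/-- density -/
theorem gh2_den (hE : EX2Stmt) (hK : K3 w L U A R) (hG : Gen (PG2 w L U A) G) {S α m : M}
    (hS : E S L) (hα : E α w) (hm : E m om) :
    ∃ p, G p ∧ E S (cg p) ∧ E α (cd p) ∧ E m (cn p) := by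
  obtain ⟨p, hp, h⟩ := (genF hG).meetC (fun q : M => E S (cg q) ∧ E α (cd q) ∧ E m (cn q))
    inferInstance (by
      intro p hp
      obtain ⟨q, hq, h1, h2⟩ := hE M w L U A R p S α m hK hp hS hα hm
      exact ⟨q, hq, h1, h2⟩)
  exact ⟨p, hp, h⟩

/-- density for two members of `w` -/
theorem gh2_den2 (hE : EX2Stmt) (hK : K3 w L U A R) (hG : Gen (PG2 w L U A) G) {S α β m : M}
    (hS : E S L) (hα : E α w) (hβ : E β w) (hm : E m om) :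
    ∃ p, G p ∧ E S (cg p) ∧ E α (cd p) ∧ E β (cd p) ∧ E m (cn p) := by
  obtain ⟨p, hp, h1, h2, h3⟩ := gh2_den hE hK hG hS hα hm
  obtain ⟨q, hq, h4, h5, h6⟩ := gh2_den hE hK hG hS hβ hm
  obtain ⟨r, hr, h7, h8⟩ := hG.dir p q hp hq
  exact ⟨r, hr, h7.1 _ h1, h7.2.1 _ h2, h8.2.1 _ h5, h7.2.2.1 _ h3⟩

end

theorem fru_gh2 (hE : EX2Stmt) : GH2Stmt := by
  intro M _ _ _ w L U A R G hK hG _
  have hem := embF hG
  have htf := traF hG
  obtain ⟨S, hS⟩ := gh2_L hK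
  constructor
  · intro d a n hd ha hn
    obtain ⟨d0, hd0, rfl⟩ := hem.trans _ _ hd
    obtain ⟨a0, ha0, rfl⟩ := hem.trans _ _ ha
    rw [← htf.om] at hn
    obtain ⟨n0, hn0, rfl⟩ := hem.trans _ _ hn
    have ha1 : E a0 w := hK.w1.1.trans hd0 ha0
    obtain ⟨p, hp, _, h1, h2, h3⟩ := gh2_den2 hE hK hG hS hd0 ha1 hn0
    have hc := gh2_cn hG hp
    obtain ⟨k, F, hkF⟩ := hc.2.2.2.2.2.2.1.2.2.1 d0 a0 n0 h1 h2 ha0 h3
    have hkF' := hkF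
    obtain ⟨δ, α, b, k', F', _, _, _, _, h5, h6, he⟩ := gh2_t hc hkF'
    rw [opair_inj, opair_inj, opair_inj, opair_inj] at he
    obtain ⟨⟨rfl, rfl, rfl⟩, rfl, rfl⟩ := he
    refine ⟨emb _ G k, emb _ G F, ?_, (htf.sub _ _).2 h6, gh2_tv hG |>.2
      ⟨p, d0, a0, n0, k, F, hp, hkF, rfl, rfl, rfl, rfl, rfl⟩, ?_⟩
    · rw [← htf.om, hem.mem]
      exact Trans_om _ (suc_mem_om hc.2.2.2.1) _ h5
    · intro k' F' h
      obtain ⟨q, d1, a1, n1, k1, F1, hq, h7, e1, e2, e3, rfl, rfl⟩ := (gh2_tv hG).1 h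
      rw [hem.inj] at e1 e2 e3
      subst e1 e2 e3
      obtain ⟨r, hr, h8, h9⟩ := hG.dir p q hp hq
      obtain ⟨e4, e5⟩ := (gh2_cn hG hr).2.2.2.2.2.2.1.2.2.2 _ _ _ _ _ _ _
        (h9.2.2.2.2.1 _ h7) (h8.2.2.2.2.1 _ hkF)
      rw [e4, e5]
      exact ⟨rfl, rfl⟩
  · intro d n l hd hn hl
    obtain ⟨d0, hd0, rfl⟩ := hem.trans _ _ hd
    rw [← htf.om] at hn hl
    obtain ⟨n0, hn0, rfl⟩ := hem.trans _ _ hn
    obtain ⟨l0, hl0, rfl⟩ := hem.trans _ _ hl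
    obtain ⟨p, hp, _, h1, h2⟩ := gh2_den hE hK hG hS hd0 hl0
    refine finF.sub (htf.fnt _ (gh2_cn hG hp).2.2.1.1) fun a ha => ?_
    rw [mem_sep' inferInstance] at ha
    obtain ⟨ha, k, F, ht, hkl⟩ := ha
    obtain ⟨q, d1, a1, n1, k1, F1, hq, h7, e1, rfl, e3, rfl, rfl⟩ := (gh2_tv hG).1 ht
    rw [hem.inj] at e1 e3
    subst e1 e3
    rw [hem.mem]
    by_contra hcon
    obtain ⟨r, hr, h8, h9⟩ := hG.dir p q hp hq
    have h10 : Tv (ct r) d0 a1 n0 k1 F1 := h9.2.2.2.2.1 _ h7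
    have h11 : ¬ Tv (ct p) d0 a1 n0 k1 F1 := by
      intro h
      obtain ⟨δ, α, b, k', F', _, h12, _, _, _, _, he⟩ := gh2_t (gh2_cn hG hp) h
      rw [opair_inj, opair_inj, opair_inj] at he
      obtain ⟨⟨_, rfl, _⟩, _⟩ := he
      exact hcon h12
    have h12 : Sub (cn p) k1 := h8.2.2.2.2.2.2.1 d0 a1 n0 k1 F1 h1 h10 h11
    rw [htf.sub] at hkl
    exact not_mem_self _ (hkl _ (h12 _ h2))

end SW.FU
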